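import Mathlib
import Pool.Agent.H57.BN.Main

set_option autoImplicit false

namespace Pool.Agent.Results.MP_3ae6da_an.AltOneOccurs

open Filter Pool.Agent.H57.BN.Plain

/-- `N = 4`, `Ω` the open unit ball of `ℝ⁴`, `μ₁ = μ₂ = 1`.  For every `λ₁ ∈ (-λ₁(Ω), 0)` there is
`th > 0` such that for every `λ₂ ∈ [-th, 0)`: positive ground states exist for every `β < 0`, and
every sequence of positive ground states with `β_n → -∞` has a subsequence satisfying
alternative (i). -/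
theorem result : 0 < firstEigenvalue ∧
    ∀ l1 : ℝ, -firstEigenvalue < l1 → l1 < 0 → ∃ th : ℝ, 0 < th ∧ th < firstEigenvalue ∧
      ∀ l2 : ℝ, -th ≤ l2 → l2 < 0 →
        (∀ β : ℝ, β < 0 → ∃ U V : H01, IsPosGroundState l1 l2 1 1 β U V) ∧
        ∀ β : ℕ → ℝ, (∀ n, β n < 0) → Tendsto β atTop atBot →
          ∀ U V : ℕ → H01, (∀ n, IsPosGroundState l1 l2 1 1 (β n) (U n) (V n)) →
            ∃ ψ : ℕ → ℕ, StrictMono ψ ∧ AltOne l1 1 (U ∘ ψ) (V ∘ ψ) :=
  Pool.Agent.H57.BN.main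

end Pool.Agent.Results.MP_3ae6da_an.AltOneOccurs
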